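import Pool.Agent.helper71.CL.Spec

/-!
# Project cl: module VLE
-/

set_option autoImplicit false

open MeasureTheory Set Filter Topology
open scoped ENNReal
open Pool.Agent.helper81.CW

namespace Pool.Agent.CL

theorem VLE (hFAR : FAR_stmt) (hJ2 : J2_stmt) : VLE_stmt := by
  intro n C t hC ht
  obtain ⟨hd, -, -⟩ := hJ2 n C 1 hC
  obtain ⟨hne, hcp, -, -, -⟩ := hC
  have hm : MeasurableSet C := hcp.measurableSet
  have h1 : ∀ x ∈ C, (1 : ℝ≥0∞) ≤ ENNReal.ofReal (Real.exp (t * (1 - far C x ^ 2))) := by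
    intro x hx
    obtain ⟨-, ⟨c, hc, hcx⟩, -, -⟩ := hFAR n C hcp hne x x
    have h2 : far C x ≤ 1 := by
      rw [← hcx]
      exact hd x hx c hc
    have h3 : 0 ≤ far C x := by
      rw [← hcx]
      exact norm_nonneg _
    have h4 : far C x ^ 2 ≤ 1 := by nlinarith
    rw [ENNReal.one_le_ofReal]
    exact Real.one_le_exp (mul_nonneg ht (by linarith))
  calc volume C = ∫⁻ _ in C, (1 : ℝ≥0∞) := by rw [setLIntegral_one]
    _ ≤ ∫⁻ x in C, ENNReal.ofReal (Real.exp (t * (1 - far C x ^ 2))) :=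
        setLIntegral_mono' hm h1
    _ ≤ ∫⁻ x : E n, ENNReal.ofReal (Real.exp (t * (1 - far C x ^ 2))) := setLIntegral_le_lintegral _ _
    _ = II C t := rfl

end Pool.Agent.CL
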