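import Pool.Agent.helper47.CL.SpecD

set_option autoImplicit false

namespace Pool.Agent.helper41.CL

open Finset

theorem bf46_pair {α : Type} [DecidableEq α] (e : Finset α) (p : α) (h2 : #e = 2) (hp : p ∈ e) :
    ∃ a, p ≠ a ∧ e = {p, a} := by
  obtain ⟨x, y, hxy, rfl⟩ := card_eq_two.1 h2
  simp only [mem_insert, mem_singleton] at hp
  rcases hp with rfl | rfl
  · exact ⟨y, hxy, rfl⟩
  · exact ⟨x, hxy.symm, pair_comm _ _⟩

theorem BF (h1 : ZD_stmt) (h2 : ZK_stmt) (h3 : ZP_stmt) (h4 : SD_stmt) : BF_stmt := by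
  intro N hSA hSC α _ V E q hG hV hN hE hq hF
  obtain ⟨⟨p, hp3⟩, hall⟩ := hF
  have hmemV : ∀ z, 1 ≤ #(inc E z) → z ∈ V := by
    intro z hz
    obtain ⟨e, he⟩ := card_pos.1 hz
    have := mem_filter.1 he
    exact (hG e this.1).1 this.2
  have hKt1 : ∀ z y, Kt E z y → #(inc E z) ≤ 1 := by
    intro z y hK
    have : inc E z ⊆ {{z, y}} := by
      intro e he
      have := mem_filter.1 he
      rw [mem_singleton]
      exact hK.2.2 e this.1 (Or.inl this.2)
    have := card_le_card this
    simpa using this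
  have hKt2 : ∀ z y, Kt E z y → #(inc E y) ≤ 1 := by
    intro z y hK
    have : inc E y ⊆ {{z, y}} := by
      intro e he
      have := mem_filter.1 he
      rw [mem_singleton]
      exact hK.2.2 e this.1 (Or.inr this.2)
    have := card_le_card this
    simpa using this
  by_cases h4' : ∃ p, 4 ≤ #(inc E p)
  · obtain ⟨p, hp⟩ := h4'
    have hpV := hmemV p (by omega)
    have hex : ∃ x y, Kt E x y := by
      by_contra hno
      have h3' : ∀ x ∈ V, 3 ≤ #(inc E x) := by
        intro x hx
        rcases hall x hx with h | ⟨y, hy⟩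
        · exact h
        · exact absurd ⟨x, y, hy⟩ hno
      have hs := h4 α V E hG
      have := Finset.sum_le_sum h3'
      rw [hs] at this
      simp only [sum_const, smul_eq_mul] at this
      omega
    obtain ⟨x, y, hK⟩ := hex
    obtain ⟨a1, a2, a3, a4⟩ := h3 α V E p hG hpV
    have hpx : p ≠ x := by
      rintro rfl
      have := hKt1 _ _ hK
      omega
    have hpy : p ≠ y := by
      rintro rfl
      have := hKt2 _ _ hK
      omega
    have hK1 : Kt (av E {p}) x y := by
      refine ⟨hK.1, ?_, ?_⟩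
      · refine mem_filter.2 ⟨hK.2.1, ?_⟩
        rw [disjoint_singleton_right]
        simp [hpx, hpy]
      · intro e he hxe
        exact hK.2.2 e (mem_filter.1 he).1 hxe
    obtain ⟨b1, b2, b3, b4⟩ := h2 α _ _ x y a1 hK1
    obtain ⟨t, rfl⟩ : ∃ t, q = t + 2 := ⟨q - 2, by omega⟩
    have c1 := hSC α _ _ (t + 1) (t + 2) b1 (by omega) (by omega) (by omega) (by omega)
    have c2 := hSA α _ _ (t + 2) t b1 (by omega) (by omega) (by omega) (by omega)
    have c3 := b4 (t + 2)
    have c4 := a4 (t + 2 + 1)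
    have d1 : 4 * 3 ^ t ≤ #(ind (V.erase p \ {x, y}) (av (av E {p}) {x, y}) (t + 1 + 1)) := by
      have e1 : 8 * 3 ^ (t + 2) * 2 ^ (t + 1) = 2 ^ (t + 1) * (72 * 3 ^ t) := by ring
      have e2 : ∀ i : ℕ, 9 * 2 ^ (t + 2) * i = 2 ^ (t + 1) * (18 * i) := by intro i; ring
      rw [e1, e2] at c1
      have := Nat.le_of_mul_le_mul_left c1 (by positivity)
      omega
    have d2 : 4 * 3 ^ t ≤ 3 * #(ind (V.erase p \ {x, y}) (av (av E {p}) {x, y}) (t + 2 + 1)) := by
      have e1 : 3 ^ t * 2 ^ (t + 2) = 2 ^ t * (4 * 3 ^ t) := by ring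
      have e2 : ∀ i : ℕ, 3 * 2 ^ t * i = 2 ^ t * (3 * i) := by intro i; ring
      rw [e1, e2] at c2
      exact Nat.le_of_mul_le_mul_left c2 (by positivity)
    have d3 : 3 ^ (t + 2) = 9 * 3 ^ t := by ring
    rw [d3]
    rw [show t + 1 + 1 = t + 2 by ring] at d1
    omega
  · have hle3 : ∀ x, #(inc E x) ≤ 3 := by
      intro x
      by_contra h
      exact h4' ⟨x, by omega⟩
    have hpd : #(inc E p) = 3 := le_antisymm (hle3 p) hp3
    obtain ⟨e, f, g, hef, heg, hfg, hinc⟩ := card_eq_three.1 hpd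
    have he : e ∈ inc E p := by rw [hinc]; simp
    have hf : f ∈ inc E p := by rw [hinc]; simp
    have hg : g ∈ inc E p := by rw [hinc]; simp
    rw [inc, mem_filter] at he hf hg
    obtain ⟨a, hpa, rfl⟩ := bf46_pair e p (hG e he.1).2 he.2
    obtain ⟨b, hpb, rfl⟩ := bf46_pair f p (hG f hf.1).2 hf.2
    obtain ⟨c, hpc, rfl⟩ := bf46_pair g p (hG g hg.1).2 hg.2
    have hab : a ≠ b := by rintro rfl; exact hef rfl
    have hac : a ≠ c := by rintro rfl; exact heg rfl
    have hbc : b ≠ c := by rintro rfl; exact hfg rfl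
    have hpV := hmemV p (by omega)
    have hnb : ∀ z, p ≠ z → ({p, z} : Finset α) ∈ E → z ∈ V ∧ #(inc E z) = 3 := by
      intro z hpz hz
      have hzV : z ∈ V := (hG _ hz).1 (by simp)
      refine ⟨hzV, ?_⟩
      rcases hall z hzV with h | ⟨y, hy⟩
      · exact le_antisymm (hle3 z) h
      · exfalso
        have e1 := hy.2.2 _ hz (Or.inl (by simp))
        have e2 : p = y := by
          have : p ∈ ({z, y} : Finset α) := e1 ▸ (by simp)
          simp only [mem_insert, mem_singleton] at this
          rcases this with h | h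
          · exact absurd h hpz
          · exact h
        have := hKt2 _ _ hy
        rw [← e2] at this
        omega
    obtain ⟨haV, hda⟩ := hnb a hpa he.1
    obtain ⟨hbV, hdb⟩ := hnb b hpb hf.1
    obtain ⟨hcV, hdc⟩ := hnb c hpc hg.1
    have hS : ({p, a, b, c} : Finset α) ⊆ V := by
      intro x hx
      simp only [mem_insert, mem_singleton] at hx
      rcases hx with rfl | rfl | rfl | rfl <;> assumption
    have hcS : #({p, a, b, c} : Finset α) = 4 := by
      rw [card_insert_of_notMem (by simp [hpa, hpb, hpc]), card_insert_of_notMem (by simp [hab, hac]), card_pair hbc]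
    have hpe : ∀ e ∈ E, p ∈ e → e ⊆ {p, a, b, c} := by
      intro e he' hpe'
      have : e ∈ inc E p := mem_filter.2 ⟨he', hpe'⟩
      rw [hinc] at this
      simp only [mem_insert, mem_singleton] at this
      rcases this with rfl | rfl | rfl <;> intro x hx <;> simp only [mem_insert, mem_singleton] at hx ⊢ <;> tauto
    have zd := h1 α V E p {p, a, b, c} q hG (by simp) hS hpe
    -- the members that meet S
    set M := E.filter (fun e => ¬ Disjoint e ({p, a, b, c} : Finset α)) with hM
    have hcard : #(av E {p, a, b, c}) + #M = #E := by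
      rw [hM, av]
      exact Finset.card_filter_add_card_filter_not _
    have hGM : Gr V M := fun e he' => hG e (mem_filter.1 he').1
    have hM6 : 6 ≤ #M := by
      have s1 := h4 α V M hGM
      have s2 : ∑ x ∈ ({p, a, b, c} : Finset α), #(inc M x) ≤ ∑ x ∈ V, #(inc M x) :=
        Finset.sum_le_sum_of_subset hS
      have s3 : ∀ x ∈ ({p, a, b, c} : Finset α), inc M x = inc E x := by
        intro x hx
        ext e
        simp only [inc, hM, mem_filter]
        constructor
        · rintro ⟨⟨i1, -⟩, i2⟩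
          exact ⟨i1, i2⟩
        · rintro ⟨i1, i2⟩
          exact ⟨⟨i1, fun hd => (Finset.disjoint_left.1 hd i2) hx⟩, i2⟩
      have s4 : ∑ x ∈ ({p, a, b, c} : Finset α), #(inc M x) = ∑ x ∈ ({p, a, b, c} : Finset α), 3 := by
        apply Finset.sum_congr rfl
        intro x hx
        rw [s3 x hx]
        simp only [mem_insert, mem_singleton] at hx
        rcases hx with rfl | rfl | rfl | rfl <;> assumption
      rw [s4, sum_const, hcS] at s2
      simp only [smul_eq_mul] at s2
      omega
    have hcVS : #(V \ {p, a, b, c}) + 4 = #V := by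
      have := card_sdiff_add_card_eq_card hS
      omega
    have hGS : Gr (V \ {p, a, b, c}) (av E {p, a, b, c}) := by
      intro e he'
      have he'' := mem_filter.1 he'
      exact ⟨fun x hx => mem_sdiff.2 ⟨(hG e he''.1).1 hx, Finset.disjoint_left.1 he''.2 hx⟩, (hG e he''.1).2⟩
    obtain ⟨a1, a2, a3, a4⟩ := h3 α V E p hG hpV
    obtain ⟨t, rfl⟩ : ∃ t, q = t + 1 := ⟨q - 1, by omega⟩
    have c1 := hSC α _ _ (t + 1) (t + 1) a1 (by omega) (by omega) (by omega) (by omega)
    have c2 := hSC α _ _ t t hGS (by omega) (by omega) (by omega) (by omega)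
    have d1 : 24 * 3 ^ t ≤ 9 * #(ind (V.erase p) (av E {p}) (t + 1 + 1)) := by
      have e1 : 8 * 3 ^ (t + 1) * 2 ^ (t + 1) = 2 ^ (t + 1) * (24 * 3 ^ t) := by ring
      have e2 : ∀ i : ℕ, 9 * 2 ^ (t + 1) * i = 2 ^ (t + 1) * (9 * i) := by intro i; ring
      rw [e1, e2] at c1
      exact Nat.le_of_mul_le_mul_left c1 (by positivity)
    have d2 : 8 * 3 ^ t ≤ 9 * #(ind (V \ {p, a, b, c}) (av E {p, a, b, c}) (t + 1)) := by
      have e1 : 8 * 3 ^ t * 2 ^ t = 2 ^ t * (8 * 3 ^ t) := by ring
      have e2 : ∀ i : ℕ, 9 * 2 ^ t * i = 2 ^ t * (9 * i) := by intro i; ring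
      rw [e1, e2] at c2
      exact Nat.le_of_mul_le_mul_left c2 (by positivity)
    have d3 : 3 ^ (t + 1) = 3 * 3 ^ t := by ring
    rw [d3]
    omega

end Pool.Agent.helper41.CL
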