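import Pool.Agent.helper47.CL.SpecD

set_option autoImplicit false

namespace Pool.Agent.helper41.CL

open Finset

theorem np46_img {α : Type} [DecidableEq α] (V S T : Finset α) (E E' : Finset (Finset α)) (m k : ℕ)
    (hT : T ⊆ S) (hS : S ⊆ V) (hk : m + #T = k) (hE : ∀ e ∈ E, e ∈ E' ∨ ¬ e ⊆ T ∪ (V \ S))
    (hE' : ∀ e ∈ E', Disjoint e S) :
    #(ind (V \ S) E' m) ≤ #((ind V E k).filter fun I => I ∩ S = T) := by
  apply Finset.card_le_card_of_injOn (fun J => J ∪ T)
  · intro J hJ
    have hJ' := Finset.mem_coe.1 hJ
    rw [ind, mem_filter, mem_powersetCard] at hJ'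
    obtain ⟨⟨hJV, hJm⟩, hJE⟩ := hJ'
    have hdis : Disjoint J S := Finset.disjoint_of_subset_left hJV Finset.sdiff_disjoint
    rw [Finset.mem_coe, mem_filter, ind, mem_filter, mem_powersetCard]
    refine ⟨⟨⟨?_, ?_⟩, ?_⟩, ?_⟩
    · exact union_subset (hJV.trans sdiff_subset) (hT.trans hS)
    · show #(J ∪ T) = k
      rw [card_union_of_disjoint (hdis.mono_right hT), hJm, hk]
    · intro e he hsub
      rcases hE e he with h | h
      · refine hJE e h (fun x hx => ?_)
        rcases mem_union.1 (hsub hx) with h1 | h1
        · exact h1
        · exact absurd (hT h1) (Finset.disjoint_left.1 (hE' e h) hx)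
      · refine h (fun x hx => ?_)
        rcases mem_union.1 (hsub hx) with h1 | h1
        · exact mem_union_right _ (hJV h1)
        · exact mem_union_left _ h1
    · show (J ∪ T) ∩ S = T
      ext x
      simp only [mem_inter, mem_union]
      constructor
      · rintro ⟨h1 | h1, h2⟩
        · exact absurd h2 (Finset.disjoint_left.1 hdis h1)
        · exact h1
      · intro h
        exact ⟨Or.inr h, hT h⟩
  · intro J hJ K hK h
    have hJ' := Finset.mem_coe.1 hJ
    have hK' := Finset.mem_coe.1 hK
    rw [ind, mem_filter, mem_powersetCard] at hJ' hK'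
    have h' : J ∪ T = K ∪ T := h
    have red : ∀ L : Finset α, L ⊆ V \ S → (L ∪ T) \ S = L := by
      intro L hL
      ext x
      simp only [mem_sdiff, mem_union]
      constructor
      · rintro ⟨h1 | h1, h2⟩
        · exact h1
        · exact absurd (hT h1) h2
      · intro hx
        exact ⟨Or.inl hx, (mem_sdiff.1 (hL hx)).2⟩
    rw [← red J hJ'.1.1, ← red K hK'.1.1, h']

theorem np46_three {α : Type} [DecidableEq α] (V : Finset α) (E : Finset (Finset α)) (p a b : α)
    (hab : a ≠ b) (hpa : p ≠ a) (hpb : p ≠ b) (hS : ({p, a, b} : Finset α) ⊆ V)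
    (hE : ∀ e ∈ E, e = {p, a} ∨ e = {p, b} ∨ Disjoint e {p, a, b}) (k : ℕ) :
    3 * #(ind (V \ {p, a, b}) (av E {p, a, b}) (k + 1)) + #(ind (V \ {p, a, b}) (av E {p, a, b}) k)
      ≤ #(ind V E (k + 2)) := by
  have key : ∀ (T : Finset α) (m : ℕ), T ⊆ {p, a, b} → m + #T = k + 2 →
      (p ∉ T ∨ a ∉ T) → (p ∉ T ∨ b ∉ T) →
      #(ind (V \ {p, a, b}) (av E {p, a, b}) m) ≤ #((ind V E (k + 2)).filter fun I => I ∩ {p, a, b} = T) := by
    intro T m hT hm h1 h2
    apply np46_img V {p, a, b} T E (av E {p, a, b}) m (k+2) hT hS hm
    · intro e he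
      rcases hE e he with h | h | h
      · right
        rw [h]
        intro hsub
        rcases h1 with h1 | h1
        · have := hsub (mem_insert_self p {a})
          simp [h1] at this
        · have := hsub (mem_insert_of_mem (mem_singleton_self a))
          simp [h1] at this
      · right
        rw [h]
        intro hsub
        rcases h2 with h1 | h1
        · have := hsub (mem_insert_self p {b})
          simp [h1] at this
        · have := hsub (mem_insert_of_mem (mem_singleton_self b))
          simp [h1] at this
      · left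
        exact mem_filter.2 ⟨he, h⟩
    · intro e he
      exact (mem_filter.1 he).2
  have e1 := key {p} (k+1) (by simp) (by simp) (by right; simp [hpa.symm]) (by right; simp [hpb.symm])
  have e2 := key {a} (k+1) (by simp) (by simp) (by left; simp [hpa]) (by left; simp [hpa])
  have e3 := key {b} (k+1) (by simp) (by simp) (by left; simp [hpb]) (by left; simp [hpb])
  have e4 := key {a, b} k (by intro x hx; simp at hx; rcases hx with h | h <;> simp [h])
    (by rw [card_pair hab]) (by left; simp [hpa, hpb]) (by left; simp [hpa, hpb])
  have tot : #(ind V E (k+2)) =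
      ∑ T ∈ ({p, a, b} : Finset α).powerset, #((ind V E (k + 2)).filter fun I => I ∩ {p, a, b} = T) :=
    Finset.card_eq_sum_card_fiberwise (fun I _ => Finset.mem_coe.2 (mem_powerset.2 inter_subset_right))
  have sub : ({{p}, {a}, {b}, {a, b}} : Finset (Finset α)) ⊆ ({p, a, b} : Finset α).powerset := by
    intro T hT
    rw [mem_powerset]
    simp only [mem_insert, mem_singleton] at hT
    rcases hT with h | h | h | h <;> subst h <;> intro x hx <;> simp at hx ⊢ <;> tauto
  have le := Finset.sum_le_sum_of_subset (f := fun T => #((ind V E (k + 2)).filter fun I => I ∩ {p, a, b} = T)) sub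
  have n1 : ({p} : Finset α) ∉ ({{a}, {b}, {a, b}} : Finset (Finset α)) := by
    simp only [mem_insert, mem_singleton, not_or]
    refine ⟨?_, ?_, ?_⟩ <;> intro h
    · have : p ∈ ({a} : Finset α) := h ▸ mem_singleton_self p
      simp [hpa] at this
    · have : p ∈ ({b} : Finset α) := h ▸ mem_singleton_self p
      simp [hpb] at this
    · have : p ∈ ({a, b} : Finset α) := h ▸ mem_singleton_self p
      simp [hpa, hpb] at this
  have n2 : ({a} : Finset α) ∉ ({{b}, {a, b}} : Finset (Finset α)) := by
    simp only [mem_insert, mem_singleton, not_or]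
    refine ⟨?_, ?_⟩ <;> intro h
    · have : a ∈ ({b} : Finset α) := h ▸ mem_singleton_self a
      simp [hab] at this
    · have : b ∈ ({a} : Finset α) := h.symm ▸ mem_insert_of_mem (mem_singleton_self b)
      simp [hab.symm] at this
  have n3 : ({b} : Finset α) ∉ ({{a, b}} : Finset (Finset α)) := by
    simp only [mem_singleton]
    intro h
    have : a ∈ ({b} : Finset α) := h.symm ▸ mem_insert_self a {b}
    simp [hab] at this
  rw [← tot, Finset.sum_insert n1, Finset.sum_insert n2, Finset.sum_insert n3, Finset.sum_singleton] at le
  omega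

theorem np46_pair {α : Type} [DecidableEq α] (e : Finset α) (p : α) (h2 : #e = 2) (hp : p ∈ e) :
    ∃ a, p ≠ a ∧ e = {p, a} := by
  obtain ⟨x, y, hxy, rfl⟩ := card_eq_two.1 h2
  simp only [mem_insert, mem_singleton] at hp
  rcases hp with rfl | rfl
  · exact ⟨y, hxy, rfl⟩
  · exact ⟨x, hxy.symm, pair_comm _ _⟩

theorem np46_tw {α : Type} [DecidableEq α] (V : Finset α) (E : Finset (Finset α)) (p : α) (hG : Gr V E)
    (hp : #(inc E p) = 2) : ∃ a b, Tw E p a b := by
  obtain ⟨e, f, hef, h⟩ := card_eq_two.1 hp
  have he : e ∈ inc E p := by rw [h]; simp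
  have hf : f ∈ inc E p := by rw [h]; simp
  rw [inc, mem_filter] at he hf
  obtain ⟨a, hpa, rfl⟩ := np46_pair e p (hG e he.1).2 he.2
  obtain ⟨b, hpb, rfl⟩ := np46_pair f p (hG f hf.1).2 hf.2
  refine ⟨a, b, ?_, hpa, hpb, he.1, hf.1, ?_⟩
  · rintro rfl
    exact hef rfl
  · intro g hg hpg
    have : g ∈ inc E p := mem_filter.2 ⟨hg, hpg⟩
    rw [h] at this
    simpa using this

theorem np46_tw_two {α : Type} [DecidableEq α] (E : Finset (Finset α)) (p a b : α) (h : Tw E p a b) :
    2 ≤ #(inc E p) := by
  obtain ⟨hab, hpa, hpb, h1, h2, -⟩ := h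
  have hne : ({p, a} : Finset α) ≠ {p, b} := by
    intro h
    have : a ∈ ({p, b} : Finset α) := h ▸ (by simp)
    simp only [mem_insert, mem_singleton] at this
    rcases this with h | h
    · exact hpa h.symm
    · exact hab h
  rw [← card_pair hne]
  apply card_le_card
  intro g hg
  simp only [mem_insert, mem_singleton] at hg
  rcases hg with rfl | rfl
  · exact mem_filter.2 ⟨h1, by simp⟩
  · exact mem_filter.2 ⟨h2, by simp⟩

theorem NP (h1 : ZK_stmt) : NP_stmt := by
  have main : ∀ n : ℕ, ∀ (α : Type) [DecidableEq α] (V A : Finset α) (E : Finset (Finset α)) (ρ : ℕ), #E = n → Gr V E →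
      (∀ x, #(inc E x) ≤ 2) → (∀ p a b, Tw E p a b → #(inc E a) = 1 ∧ #(inc E b) = 1) →
      (∀ x, x ∈ A ↔ #(inc E x) = 2) → ρ ≤ #A →
      #E ≤ #V ∧ 2 * #A ≤ #E ∧ (#A).choose ρ * 3 ^ (#A - ρ) * 2 ^ (#E - 2 * #A) ≤ #(ind V E (#V - #E + ρ)) := by
    intro n
    induction n using Nat.strong_induction_on with
    | _ n ih =>
    intro α _ V A E ρ hn hG hdeg hTw hA hρ
    by_cases hAe : A.Nonempty
    · obtain ⟨p, hp⟩ := hAe
      obtain ⟨a, b, hT⟩ := np46_tw V E p hG ((hA p).1 hp)
      obtain ⟨da, db⟩ := hTw p a b hT
      obtain ⟨hab, hpa, hpb, hea, heb, hinc⟩ := hT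
      have ia : inc E a = {{p, a}} := by
        obtain ⟨g, hg⟩ := card_eq_one.1 da
        have : ({p, a} : Finset α) ∈ inc E a := mem_filter.2 ⟨hea, by simp⟩
        rw [hg, mem_singleton] at this
        rw [hg, this]
      have ib : inc E b = {{p, b}} := by
        obtain ⟨g, hg⟩ := card_eq_one.1 db
        have : ({p, b} : Finset α) ∈ inc E b := mem_filter.2 ⟨heb, by simp⟩
        rw [hg, mem_singleton] at this
        rw [hg, this]
      have hS : ({p, a, b} : Finset α) ⊆ V := by
        intro x hx
        simp only [mem_insert, mem_singleton] at hx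
        rcases hx with rfl | rfl | rfl
        · exact (hG _ hea).1 (by simp)
        · exact (hG _ hea).1 (by simp)
        · exact (hG _ heb).1 (by simp)
      have hE : ∀ e ∈ E, e = {p, a} ∨ e = {p, b} ∨ Disjoint e {p, a, b} := by
        intro e he
        by_cases hpe : p ∈ e
        · rcases hinc e he hpe with h | h
          · exact Or.inl h
          · exact Or.inr (Or.inl h)
        by_cases hae : a ∈ e
        · left
          have : e ∈ inc E a := mem_filter.2 ⟨he, hae⟩
          rwa [ia, mem_singleton] at this
        by_cases hbe : b ∈ e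
        · right; left
          have : e ∈ inc E b := mem_filter.2 ⟨he, hbe⟩
          rwa [ib, mem_singleton] at this
        right; right
        rw [Finset.disjoint_right]
        intro x hx
        simp only [mem_insert, mem_singleton] at hx
        rcases hx with rfl | rfl | rfl <;> assumption
      have hne : ({p, a} : Finset α) ≠ {p, b} := by
        intro h
        have : a ∈ ({p, b} : Finset α) := h ▸ (by simp)
        simp only [mem_insert, mem_singleton] at this
        rcases this with h | h
        · exact hpa h.symm
        · exact hab h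
      have hEun : E = insert {p, a} (insert {p, b} (av E {p, a, b})) := by
        ext e
        simp only [mem_insert, av, mem_filter]
        constructor
        · intro he
          rcases hE e he with h | h | h
          · exact Or.inl h
          · exact Or.inr (Or.inl h)
          · exact Or.inr (Or.inr ⟨he, h⟩)
        · rintro (h | h | h)
          · rw [h]; exact hea
          · rw [h]; exact heb
          · exact h.1
      have hpav : ∀ e ∈ av E {p, a, b}, p ∉ e := by
        intro e he hpe
        have := (mem_filter.1 he).2
        exact (Finset.disjoint_left.1 this hpe) (by simp)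
      have hcE : #(av E {p, a, b}) + 2 = #E := by
        have c1 : ({p, b} : Finset α) ∉ av E {p, a, b} := fun h => hpav _ h (by simp)
        have c2 : ({p, a} : Finset α) ∉ insert {p, b} (av E {p, a, b}) := by
          rw [mem_insert, not_or]
          exact ⟨hne, fun h => hpav _ h (by simp)⟩
        have := congrArg Finset.card hEun
        rw [card_insert_of_notMem c2, card_insert_of_notMem c1] at this
        omega
      have hc3 : #({p, a, b} : Finset α) = 3 := card_eq_three.2 ⟨p, a, b, hpa, hpb, hab, rfl⟩
      have hcV : #(V \ {p, a, b}) + 3 = #V := by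
        have := card_sdiff_add_card_eq_card hS
        omega
      have hinceq : ∀ x, x ∉ ({p, a, b} : Finset α) → inc (av E {p, a, b}) x = inc E x := by
        intro x hx
        ext e
        simp only [inc, av, mem_filter]
        constructor
        · rintro ⟨⟨h1, -⟩, h2⟩
          exact ⟨h1, h2⟩
        · rintro ⟨h1, h2⟩
          refine ⟨⟨h1, ?_⟩, h2⟩
          simp only [mem_insert, mem_singleton, not_or] at hx
          rcases hE e h1 with h | h | h
          · rw [h] at h2
            simp only [mem_insert, mem_singleton] at h2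
            tauto
          · rw [h] at h2
            simp only [mem_insert, mem_singleton] at h2
            tauto
          · exact h
      have hincem : ∀ x, x ∈ ({p, a, b} : Finset α) → inc (av E {p, a, b}) x = ∅ := by
        intro x hx
        rw [eq_empty_iff_forall_notMem]
        intro e he
        simp only [inc, av, mem_filter] at he
        exact (Finset.disjoint_left.1 he.1.2 he.2) hx
      have hG' : Gr (V \ {p, a, b}) (av E {p, a, b}) := by
        intro e he
        have he' := mem_filter.1 he
        refine ⟨fun x hx => mem_sdiff.2 ⟨(hG e he'.1).1 hx, Finset.disjoint_left.1 he'.2 hx⟩, (hG e he'.1).2⟩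
      have hdeg' : ∀ x, #(inc (av E {p, a, b}) x) ≤ 2 := by
        intro x
        by_cases hx : x ∈ ({p, a, b} : Finset α)
        · rw [hincem x hx]; simp
        · rw [hinceq x hx]; exact hdeg x
      have hmemout : ∀ x e, e ∈ av E {p, a, b} → x ∈ e → x ∉ ({p, a, b} : Finset α) := by
        intro x e he hx
        exact Finset.disjoint_left.1 (mem_filter.1 he).2 hx
      have hTw' : ∀ p' a' b', Tw (av E {p, a, b}) p' a' b' →
          #(inc (av E {p, a, b}) a') = 1 ∧ #(inc (av E {p, a, b}) b') = 1 := by
        intro p' a' b' hT'
        obtain ⟨t1, t2, t3, t4, t5, t6⟩ := hT'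
        have op := hmemout p' _ t4 (by simp)
        have oa := hmemout a' _ t4 (by simp)
        have ob := hmemout b' _ t5 (by simp)
        rw [hinceq a' oa, hinceq b' ob]
        apply hTw p'
        refine ⟨t1, t2, t3, (mem_filter.1 t4).1, (mem_filter.1 t5).1, ?_⟩
        intro e he hpe
        apply t6 e _ hpe
        have : e ∈ inc (av E {p, a, b}) p' := by
          rw [hinceq p' op]
          exact mem_filter.2 ⟨he, hpe⟩
        exact (mem_filter.1 this).1
      have hA' : ∀ x, x ∈ A.erase p ↔ #(inc (av E {p, a, b}) x) = 2 := by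
        intro x
        by_cases hx : x ∈ ({p, a, b} : Finset α)
        · rw [hincem x hx]
          simp only [card_empty, mem_erase]
          constructor
          · rintro ⟨h1, h2⟩
            simp only [mem_insert, mem_singleton] at hx
            have := (hA x).1 h2
            rcases hx with rfl | rfl | rfl
            · exact absurd rfl h1
            · omega
            · omega
          · intro h
            omega
        · rw [hinceq x hx, mem_erase, hA x]
          simp only [mem_insert, mem_singleton, not_or] at hx
          tauto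
      have hcA : #(A.erase p) + 1 = #A := card_erase_add_one hp
      have hlt : #(av E {p, a, b}) < n := by omega
      have three := np46_three V E p a b hab hpa hpb hS hE
      obtain ⟨i1, i2, -⟩ := ih _ hlt α (V \ {p, a, b}) (A.erase p) (av E {p, a, b}) 0 rfl hG' hdeg' hTw' hA' (Nat.zero_le _)
      refine ⟨by omega, by omega, ?_⟩
      have g1 : ρ ≤ #(A.erase p) → (#(A.erase p)).choose ρ * 3 ^ (#(A.erase p) - ρ) * 2 ^ (#E - 2 * #A) ≤
          #(ind (V \ {p, a, b}) (av E {p, a, b}) (#(V \ {p, a, b}) - #(av E {p, a, b}) + ρ)) := by
        intro h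
        have := (ih _ hlt α (V \ {p, a, b}) (A.erase p) (av E {p, a, b}) ρ rfl hG' hdeg' hTw' hA' h).2.2
        rwa [show #(av E {p, a, b}) - 2 * #(A.erase p) = #E - 2 * #A by omega] at this
      set m := #(A.erase p) with hm
      set W := #(V \ {p, a, b}) - #(av E {p, a, b}) with hW
      have hK : #V - #E = W + 1 := by omega
      have hmA : #A = m + 1 := by omega
      rw [hK, hmA]
      rw [hmA] at g1 hρ
      rcases Nat.eq_zero_or_pos ρ with h0 | h0
      · subst h0
        have g := g1 (Nat.zero_le _)
        simp only [Nat.choose_zero_right, one_mul, Nat.sub_zero, Nat.add_zero] at g ⊢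
        rcases Nat.eq_zero_or_pos W with hW0 | hW0
        · -- the general inequality with k + 1 = 0 is not available, use three with k = 0 shifted
          rw [hW0] at g ⊢
          have hsingle : 3 * #(ind (V \ {p, a, b}) (av E {p, a, b}) 0) ≤ #(ind V E (0 + 1)) := by
            have z0 : #(ind (V \ {p, a, b}) (av E {p, a, b}) 0) ≤ 1 := by
              refine (card_le_card (filter_subset _ _)).trans ?_
              simp
            have z1 : ({{p}, {a}, {b}} : Finset (Finset α)) ⊆ ind V E (0 + 1) := by
              intro T hT
              simp only [mem_insert, mem_singleton] at hT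
              rw [ind, mem_filter, mem_powersetCard]
              have : ∃ x ∈ V, T = {x} := by
                rcases hT with h | h | h
                · exact ⟨p, hS (by simp), h⟩
                · exact ⟨a, hS (by simp), h⟩
                · exact ⟨b, hS (by simp), h⟩
              obtain ⟨x, hx, rfl⟩ := this
              refine ⟨⟨by simpa using hx, by simp⟩, ?_⟩
              intro e he hsub
              have := card_le_card hsub
              rw [(hG e he).2] at this
              simp at this
            have z2 : #({{p}, {a}, {b}} : Finset (Finset α)) = 3 := by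
              rw [card_eq_three]
              refine ⟨{p}, {a}, {b}, ?_, ?_, ?_, rfl⟩
              · simpa using hpa
              · simpa using hpb
              · simpa using hab
            have := card_le_card z1
            omega
          calc 3 ^ (m + 1) * 2 ^ (#E - 2 * (m + 1)) = 3 * (3 ^ m * 2 ^ (#E - 2 * (m + 1))) := by ring
            _ ≤ 3 * #(ind (V \ {p, a, b}) (av E {p, a, b}) 0) := Nat.mul_le_mul_left _ g
            _ ≤ _ := hsingle
        · obtain ⟨w, hw⟩ : ∃ w, W = w + 1 := ⟨W - 1, by omega⟩
          rw [hw] at g ⊢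
          have t := three w
          calc 3 ^ (m + 1) * 2 ^ (#E - 2 * (m + 1)) = 3 * (3 ^ m * 2 ^ (#E - 2 * (m + 1))) := by ring
            _ ≤ 3 * #(ind (V \ {p, a, b}) (av E {p, a, b}) (w + 1)) := Nat.mul_le_mul_left _ g
            _ ≤ #(ind V E (w + 2)) := by omega
      · obtain ⟨r, rfl⟩ : ∃ r, ρ = r + 1 := ⟨ρ - 1, by omega⟩
        have g2 := (ih _ hlt α (V \ {p, a, b}) (A.erase p) (av E {p, a, b}) r rfl hG' hdeg' hTw' hA' (by omega)).2.2
        rw [show #(av E {p, a, b}) - 2 * #(A.erase p) = #E - 2 * (m + 1) by omega, ← hm, ← hW] at g2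
        have t := three (W + r)
        rw [show W + 1 + (r + 1) = W + r + 2 by ring]
        by_cases hr : r + 1 ≤ m
        · have g := g1 hr
          rw [show W + (r + 1) = W + r + 1 by ring] at g
          have e1 : m + 1 - (r + 1) = m - r := by omega
          have e2 : m - r = (m - (r + 1)) + 1 := by omega
          rw [Nat.choose_succ_succ, e1]
          calc (m.choose r + m.choose (r + 1)) * 3 ^ (m - r) * 2 ^ (#E - 2 * (m + 1))
              = m.choose r * 3 ^ (m - r) * 2 ^ (#E - 2 * (m + 1))
                + 3 * (m.choose (r + 1) * 3 ^ (m - (r + 1)) * 2 ^ (#E - 2 * (m + 1))) := by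
                rw [e2, pow_succ]; ring
            _ ≤ #(ind (V \ {p, a, b}) (av E {p, a, b}) (W + r))
                + 3 * #(ind (V \ {p, a, b}) (av E {p, a, b}) (W + r + 1)) := by
                exact Nat.add_le_add g2 (Nat.mul_le_mul_left _ g)
            _ ≤ _ := by omega
        · have e1 : r = m := by omega
          subst e1
          rw [Nat.choose_self, Nat.sub_self]
          rw [Nat.choose_self, Nat.sub_self] at g2
          omega
    · rw [not_nonempty_iff_eq_empty] at hAe
      subst hAe
      have hρ0 : ρ = 0 := by simpa using hρ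
      subst hρ0
      have hdeg1 : ∀ x, #(inc E x) ≤ 1 := by
        intro x
        have h2 := hdeg x
        have h3 : #(inc E x) ≠ 2 := by
          intro h
          have := (hA x).2 h
          simp at this
        omega
      by_cases hE : E.Nonempty
      · obtain ⟨e, he⟩ := hE
        obtain ⟨x, y, hxy, rfl⟩ := card_eq_two.1 (hG e he).2
        have hK : Kt E x y := by
          refine ⟨hxy, he, ?_⟩
          intro f hf hxf
          rcases hxf with h | h
          · have a1 : f ∈ inc E x := mem_filter.2 ⟨hf, h⟩
            have a2 : ({x, y} : Finset α) ∈ inc E x := mem_filter.2 ⟨he, by simp⟩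
            exact card_le_one.1 (hdeg1 x) _ a1 _ a2
          · have a1 : f ∈ inc E y := mem_filter.2 ⟨hf, h⟩
            have a2 : ({x, y} : Finset α) ∈ inc E y := mem_filter.2 ⟨he, by simp⟩
            exact card_le_one.1 (hdeg1 y) _ a1 _ a2
        obtain ⟨z1, z2, z3, z4⟩ := h1 α V E x y hG hK
        have hincle : ∀ z, #(inc (av E {x, y}) z) ≤ #(inc E z) := by
          intro z
          apply card_le_card
          intro f hf
          simp only [inc, av, mem_filter] at hf ⊢
          exact ⟨hf.1.1, hf.2⟩
        have hlt : #(av E {x, y}) < n := by omega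
        obtain ⟨j1, j2, j3⟩ := ih _ hlt α (V \ {x, y}) ∅ (av E {x, y}) 0 rfl z1
          (fun z => (hincle z).trans (hdeg z))
          (fun p a b hT => by
            have := np46_tw_two _ p a b hT
            have h4 := hincle p
            have h5 := hdeg1 p
            omega)
          (fun z => by
            have h4 := hincle z
            have h5 := hdeg1 z
            simp only [notMem_empty, false_iff]
            omega)
          (Nat.zero_le _)
        simp only [card_empty, Nat.choose_zero_right, Nat.sub_zero, pow_zero, one_mul, Nat.mul_zero, Nat.add_zero] at j3 ⊢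
        refine ⟨by omega, by omega, ?_⟩
        have hk : #V - #E = (#(V \ {x, y}) - #(av E {x, y})) + 1 := by omega
        have hk2 : #E = #(av E {x, y}) + 1 := by omega
        have z5 := z4 (#(V \ {x, y}) - #(av E {x, y}))
        rw [hk]
        have : 2 ^ #E = 2 * 2 ^ #(av E {x, y}) := by rw [hk2, pow_succ]; ring
        omega
      · rw [not_nonempty_iff_eq_empty] at hE
        subst hE
        simp only [card_empty, Nat.choose_zero_right, Nat.sub_zero, pow_zero, one_mul, Nat.mul_zero, Nat.add_zero]
        refine ⟨Nat.zero_le _, le_refl _, ?_⟩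
        apply card_pos.2
        refine ⟨V, ?_⟩
        rw [ind, mem_filter, mem_powersetCard]
        exact ⟨⟨subset_refl _, rfl⟩, by simp⟩
  intro α _ V A E ρ hG hdeg hTw hA hρ
  exact main _ α V A E ρ rfl hG hdeg hTw hA hρ

end Pool.Agent.helper41.CL
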